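import Mathlib

/-!
# Adaptive reads of a random bijection
-/

set_option autoImplicit false

namespace Pool.Agent.L7h39.TN

open Finset

/-- Decision trees which read the values of a function `V → W`. -/
inductive DT (V W : Type) : Type
  | leaf : DT V W
  | node (x : V) (k : W → DT V W) : DT V W

variable {V W : Type} [DecidableEq V]

/-- The set of the elements which are read. -/
def touched : DT V W → (V → W) → Finset V
  | DT.leaf, _ => ∅
  | DT.node x k, f => insert x (touched (k (f x)) f)

/-- The depth is at most `n`. -/
def DLe : ℕ → DT V W → Prop
  | _, DT.leaf => True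
  | 0, DT.node _ _ => False
  | n + 1, DT.node _ k => ∀ w, DLe n (k w)

theorem dle_succ {n : ℕ} : ∀ {d : DT V W}, DLe n d → DLe (n + 1) d := by
  induction n with
  | zero =>
    intro d h
    cases d with
    | leaf => simp [DLe]
    | node x k => simp [DLe] at h
  | succ n ih =>
    intro d h
    cases d with
    | leaf => simp [DLe]
    | node x k =>
      simp only [DLe] at h ⊢
      intro w
      have := ih (h w)
      exact this

variable [Fintype V] [DecidableEq W] [Fintype W]

theorem card_agree (A : Finset V) (π0 : V ≃ W) :
    (univ.filter (fun π : V ≃ W => ∀ a ∈ A, π a = π0 a)).card = (Fintype.card V - A.card).factorial := by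
  classical
  have e1 : {π : V ≃ W // ∀ a ∈ A, π a = π0 a} ≃ {f : Equiv.Perm V // ∀ a, ¬ (a ∉ A) → f a = a} :=
    { toFun := fun π => ⟨π.1.trans π0.symm, fun a ha => by
        simp only [Equiv.trans_apply]
        rw [π.2 a (not_not.1 ha)]; simp⟩
      invFun := fun f => ⟨f.1.trans π0, fun a ha => by
        simp only [Equiv.trans_apply]
        rw [f.2 a (not_not.2 ha)]⟩
      left_inv := fun π => by
        apply Subtype.ext
        apply Equiv.ext
        intro a
        simp
      right_inv := fun f => by
        apply Subtype.ext
        apply Equiv.ext
        intro a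
        simp }
  have e2 := Equiv.Perm.subtypeEquivSubtypePerm (fun a => a ∉ A)
  have h1 : Fintype.card {π : V ≃ W // ∀ a ∈ A, π a = π0 a} =
      Fintype.card (Equiv.Perm {a // a ∉ A}) := Fintype.card_congr (e1.trans e2.symm)
  rw [Fintype.card_perm] at h1
  rw [← Fintype.card_subtype, h1]
  congr 1
  rw [Fintype.card_subtype_compl]
  simp

omit [Fintype V] [DecidableEq V] [DecidableEq W] [Fintype W] in
theorem pow_step (r f : ℕ) : f * r ^ (f - 1) + r ^ f ≤ (r + 1) ^ f := by
  induction f with
  | zero => simp
  | succ f ih =>
    rcases Nat.eq_zero_or_pos f with rfl | hf
    · simp [Nat.add_comm]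
    · obtain ⟨g, rfl⟩ : ∃ g, f = g + 1 := ⟨f - 1, by omega⟩
      simp only [Nat.add_sub_cancel] at ih ⊢
      calc (g + 1 + 1) * r ^ (g + 1) + r ^ (g + 1 + 1)
          ≤ ((g + 1) * r ^ g + r ^ (g + 1)) * (r + 1) := by
            rw [pow_succ r (g + 1), pow_succ r g]
            nlinarith [Nat.zero_le (r ^ g), Nat.zero_le ((g + 1) * r ^ g)]
        _ ≤ (r + 1) ^ (g + 1) * (r + 1) := Nat.mul_le_mul_right _ ih
        _ = (r + 1) ^ (g + 1 + 1) := by ring

theorem count (hVW : Fintype.card V = Fintype.card W) (R : ℕ) :
    ∀ (d : DT V W), DLe R d → ∀ (A : Finset V) (π0 : V ≃ W) (F : Finset W), (∀ a ∈ A, π0 a ∉ F) →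
      (univ.filter (fun π : V ≃ W => (∀ a ∈ A, π a = π0 a) ∧ F ⊆ (touched d π).image π)).card ≤
        R ^ F.card * (Fintype.card V - A.card - F.card).factorial := by
  classical
  have hleaf : ∀ (R : ℕ) (A : Finset V) (π0 : V ≃ W) (F : Finset W),
      (univ.filter (fun π : V ≃ W => (∀ a ∈ A, π a = π0 a) ∧
        F ⊆ (touched (DT.leaf : DT V W) π).image π)).card ≤
        R ^ F.card * (Fintype.card V - A.card - F.card).factorial := by
    intro R A π0 F
    rcases F.eq_empty_or_nonempty with rfl | ⟨y, hy⟩
    · simp only [card_empty, pow_zero, one_mul, Nat.sub_zero]
      rw [← card_agree A π0]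
      exact card_le_card (fun π hπ => by simp only [mem_filter, mem_univ, true_and] at hπ ⊢; exact hπ.1)
    · rw [filter_false_of_mem]
      · simp
      · intro π _ h
        have := h.2 hy
        simp [touched] at this
  induction R with
  | zero =>
    intro d hd A π0 F _
    cases d with
    | leaf => exact hleaf 0 A π0 F
    | node x k => simp [DLe] at hd
  | succ R ih =>
    intro d hd A π0 F hF
    cases d with
    | leaf => exact hleaf (R + 1) A π0 F
    | node x k =>
      simp only [DLe] at hd
      by_cases hx : x ∈ A
      · -- the value is known
        have h1 := ih (k (π0 x)) (hd _) A π0 F hF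
        refine (card_le_card ?_).trans (h1.trans (Nat.mul_le_mul_right _ (Nat.pow_le_pow_left (by omega) _)))
        intro π hπ
        simp only [mem_filter, mem_univ, true_and] at hπ ⊢
        refine ⟨hπ.1, fun y hy => ?_⟩
        have h2 := hπ.2 hy
        simp only [touched, hπ.1 x hx, image_insert, mem_insert] at h2
        rcases h2 with h2 | h2
        · exact absurd hy (h2 ▸ hF x hx)
        · exact h2
      · set n := Fintype.card V
        have hsum : (univ.filter (fun π : V ≃ W => (∀ a ∈ A, π a = π0 a) ∧
            F ⊆ (touched (DT.node x k) π).image π)).card =
            ∑ v : W, ((univ.filter (fun π : V ≃ W => (∀ a ∈ A, π a = π0 a) ∧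
              F ⊆ (touched (DT.node x k) π).image π)).filter (fun π => π x = v)).card :=
          card_eq_sum_card_fiberwise (fun _ _ => mem_coe.2 (mem_univ _))
        rw [hsum]
        have hb : ∀ v : W, ((univ.filter (fun π : V ≃ W => (∀ a ∈ A, π a = π0 a) ∧
              F ⊆ (touched (DT.node x k) π).image π)).filter (fun π => π x = v)).card ≤
            if v ∈ F then R ^ (F.card - 1) * (n - A.card - F.card).factorial
            else if v ∈ A.image π0 then 0 else R ^ F.card * (n - A.card - F.card - 1).factorial := by
          intro v
          by_cases hvA : v ∈ A.image π0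
          · rw [filter_false_of_mem]
            · simp
            · intro π hπ hv
              simp only [mem_filter, mem_univ, true_and] at hπ
              obtain ⟨a, ha, rfl⟩ := mem_image.1 hvA
              rw [← hπ.1 a ha] at hv
              exact hx (π.injective hv ▸ ha)
          · rcases ((univ.filter (fun π : V ≃ W => (∀ a ∈ A, π a = π0 a) ∧
              F ⊆ (touched (DT.node x k) π).image π)).filter (fun π => π x = v)).eq_empty_or_nonempty
              with h0 | ⟨π1, h1⟩
            · rw [h0]; simp
            · simp only [mem_filter, mem_univ, true_and] at h1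
              have h2 := ih (k v) (hd v) (insert x A) π1 (F.erase v) (by
                intro a ha
                rcases mem_insert.1 ha with rfl | ha
                · rw [h1.2]; simp
                · rw [h1.1.1 a ha]
                  intro h; exact hF a ha (mem_of_mem_erase h))
              rw [card_insert_of_notMem hx] at h2
              have h3 : ((univ.filter (fun π : V ≃ W => (∀ a ∈ A, π a = π0 a) ∧
                  F ⊆ (touched (DT.node x k) π).image π)).filter (fun π => π x = v)).card ≤
                  R ^ (F.erase v).card * (n - (A.card + 1) - (F.erase v).card).factorial := by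
                refine (card_le_card ?_).trans h2
                intro π hπ
                simp only [mem_filter, mem_univ, true_and] at hπ ⊢
                refine ⟨fun a ha => ?_, fun y hy => ?_⟩
                · rcases mem_insert.1 ha with rfl | ha
                  · rw [hπ.2, h1.2]
                  · rw [hπ.1.1 a ha, h1.1.1 a ha]
                · have h4 := hπ.1.2 (mem_of_mem_erase hy)
                  simp only [touched, hπ.2, image_insert, mem_insert] at h4
                  rcases h4 with h4 | h4
                  · exact absurd h4 (ne_of_mem_erase hy)
                  · exact h4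
              by_cases hvF : v ∈ F
              · simp only [hvF, if_true]
                rw [card_erase_of_mem hvF] at h3
                have : 0 < F.card := card_pos.2 ⟨v, hvF⟩
                rwa [show n - (A.card + 1) - (F.card - 1) = n - A.card - F.card by omega] at h3
              · simp only [hvF, hvA, if_false]
                rw [erase_eq_of_notMem hvF] at h3
                rwa [show n - (A.card + 1) - F.card = n - A.card - F.card - 1 by omega] at h3
        refine (sum_le_sum (fun v _ => hb v)).trans ?_
        rw [sum_ite, sum_ite]
        simp only [sum_const, smul_eq_mul, filter_mem_eq_inter, univ_inter, mul_zero, zero_add]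
        have hc : ((univ.filter (fun v => v ∉ F)).filter (fun v => v ∉ A.image π0)).card = n - A.card - F.card := by
          have h1 : (univ.filter (fun v => v ∉ F)).filter (fun v => v ∉ A.image π0) =
              univ \ (F ∪ A.image π0) := by
            ext v; simp [not_or]
          rw [h1, card_univ_sdiff, card_union_of_disjoint, card_image_of_injective _ π0.injective, ← hVW]
          · omega
          · rw [disjoint_left]
            intro v hv hv'
            obtain ⟨a, ha, rfl⟩ := mem_image.1 hv'
            exact hF a ha hv
        rw [hc]
        calc F.card * (R ^ (F.card - 1) * (n - A.card - F.card).factorial) +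
              (n - A.card - F.card) * (R ^ F.card * (n - A.card - F.card - 1).factorial)
            ≤ F.card * R ^ (F.card - 1) * (n - A.card - F.card).factorial +
              R ^ F.card * (n - A.card - F.card).factorial := by
              apply Nat.add_le_add
              · rw [mul_assoc]
              · rcases Nat.eq_zero_or_pos (n - A.card - F.card) with h0 | h0
                · rw [h0]; simp
                · rw [← Nat.mul_factorial_pred (by omega : n - A.card - F.card ≠ 0)]
                  apply le_of_eq; ring
          _ = (F.card * R ^ (F.card - 1) + R ^ F.card) * (n - A.card - F.card).factorial := by ring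
          _ ≤ _ := Nat.mul_le_mul_right _ (pow_step R F.card)

/-- The number of the bijections for which a tree of depth at most `R` reads all the values in `F`. -/
theorem count' (hVW : Fintype.card V = Fintype.card W) (R : ℕ) (d : DT V W) (hd : DLe R d) (F : Finset W) :
    (univ.filter (fun π : V ≃ W => F ⊆ (touched d π).image π)).card ≤
      R ^ F.card * (Fintype.card V - F.card).factorial := by
  have π0 : V ≃ W := Fintype.equivOfCardEq hVW
  have := count hVW R d hd ∅ π0 F (by simp)
  simpa using this

/-- The number of the bijections with two prescribed values. -/
theorem card_two (π0 : V ≃ W) {v v' : V} (h : v ≠ v') :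
    (univ.filter (fun π : V ≃ W => π v = π0 v ∧ π v' = π0 v')).card = (Fintype.card V - 2).factorial := by
  have := card_agree {v, v'} π0
  rw [card_pair h] at this
  rw [← this]
  congr 1
  ext π
  simp

end Pool.Agent.L7h39.TN
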