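import Pool.Agent.TH726.OT.Ram

/-!
# Finitely many functions of finitely many numbers are order invariant on a set of numbers
-/

set_option autoImplicit false

namespace Pool.Agent.L7h39.TN

open Finset

/-- The `j`-th smallest element of `B` (`0` for `j = 0`). -/
def acc (B : Finset ℕ) (j : ℕ) : ℕ := ∑ x ∈ B with (B.filter (· < x)).card + 1 = j, x

theorem card_lt_of_lt {B : Finset ℕ} {x y : ℕ} (hx : x ∈ B) (h : x < y) :
    (B.filter (· < x)).card < (B.filter (· < y)).card := by
  apply card_lt_card
  rw [ssubset_iff_of_subset]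
  · exact ⟨x, by simp [hx, h], by simp⟩
  · intro z hz
    simp only [mem_filter] at hz ⊢
    exact ⟨hz.1, hz.2.trans h⟩

theorem acc_eq {B : Finset ℕ} {x : ℕ} (hx : x ∈ B) : acc B ((B.filter (· < x)).card + 1) = x := by
  unfold acc
  rw [sum_eq_single_of_mem x (by simp [hx])]
  intro y hy hne
  simp only [mem_filter] at hy
  rcases lt_or_gt_of_ne hne with h | h
  · have := card_lt_of_lt hy.1 h
    omega
  · have := card_lt_of_lt hx h
    omega

theorem acc_zero (B : Finset ℕ) : acc B 0 = 0 := by
  unfold acc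
  rw [filter_false_of_mem (by intros; omega)]
  simp

theorem multi {κ : Type*} [Finite κ] (c : Finset ℕ → κ) (d : ℕ) :
    ∃ T : Set ℕ, T.Infinite ∧ (∀ x ∈ T, 0 < x) ∧ ∃ a : ℕ → κ, ∀ σ : Finset ℕ, (σ : Set ℕ) ⊆ T → σ.card ≤ d →
      c σ = a σ.card := by
  induction d with
  | zero =>
    refine ⟨{x | 0 < x}, Set.infinite_of_not_bddAbove ?_, fun x hx => hx, fun _ => c ∅, ?_⟩
    · rintro ⟨b, hb⟩
      have := hb (show b + 1 ∈ {x | 0 < x} from Nat.succ_pos b)
      omega
    · intro σ _ h
      rw [Finset.card_eq_zero.1 (Nat.le_zero.1 h)]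
  | succ d ih =>
    obtain ⟨T, hT, hpos, a, ha⟩ := ih
    obtain ⟨T', hT', hinf, b, hb⟩ := Pool.Agent.TH726.OT.ramsey (d + 1) c T hT
    refine ⟨T', hinf, fun x hx => hpos x (hT' hx), fun j => if j = d + 1 then b else a j, ?_⟩
    intro σ hσ hc
    by_cases h : σ.card = d + 1
    · simp only [h, if_true]; exact hb σ hσ h
    · simp only [h, if_false]; exact ha σ (hσ.trans hT') (by omega)

/-- Finitely many functions of finitely many numbers are order invariant on a set of numbers. -/
theorem exists_invariant {ι R C : Type} [Fintype ι] [Finite R] [Finite C] (F : R → (ι → ℕ) → C) :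
    ∃ H : ℕ → ℕ, StrictMono H ∧ H 0 = 0 ∧ ∀ (r : R) (t : ι → ℕ) (g : ℕ → ℕ), g 0 = 0 →
      StrictMonoOn g (insert 0 (Set.range t)) → F r (fun i => H (g (t i))) = F r (fun i => H (t i)) := by
  classical
  set s := Fintype.card ι
  obtain ⟨T, hT, hpos, a, ha⟩ := multi
    (fun (B : Finset ℕ) (f : ι → Fin (s + 1)) (r : R) => F r (fun i => acc B (f i))) s
  let H : ℕ → ℕ := fun i => if i = 0 then 0 else Nat.nth (· ∈ T) (i - 1)
  have hinf : (setOf (· ∈ T)).Infinite := hT
  have hmem : ∀ i, i ≠ 0 → H i ∈ T := fun i hi => by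
    simp only [H, hi, if_false]; exact Nat.nth_mem_of_infinite hinf _
  have hH0 : H 0 = 0 := by simp [H]
  have hH : StrictMono H := by
    apply strictMono_nat_of_lt_succ
    intro i
    rcases Nat.eq_zero_or_pos i with rfl | hi
    · rw [hH0]; exact hpos _ (hmem _ (by omega))
    · simp only [H, show i ≠ 0 by omega, if_false, show i + 1 ≠ 0 by omega]
      exact (Nat.nth_lt_nth hinf).2 (by omega)
  refine ⟨H, hH, hH0, ?_⟩
  -- the set of the indices and the pattern
  let N : (ι → ℕ) → Finset ℕ := fun t => (univ.image t).erase 0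
  let pt : (ι → ℕ) → ι → ℕ := fun t i => if t i = 0 then 0 else ((N t).filter (· < t i)).card + 1
  have hNs : ∀ t, (N t).card ≤ s := fun t =>
    (card_erase_le).trans (card_image_le.trans (by simp [s]))
  have hptlt : ∀ t i, pt t i < s + 1 := by
    intro t i
    simp only [pt]
    split
    · omega
    · rename_i h0
      have : ((N t).filter (· < t i)).card < (N t).card := by
        apply card_lt_card
        rw [ssubset_iff_of_subset (filter_subset _ _)]
        exact ⟨t i, by simp [N, h0], by simp⟩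
      have := hNs t
      omega
  have hfilter : ∀ t i, (((N t).image H).filter (· < H (t i))).card = ((N t).filter (· < t i)).card := by
    intro t i
    rw [show ((N t).image H).filter (· < H (t i)) = ((N t).filter (· < t i)).image H from ?_]
    · exact card_image_of_injective _ hH.injective
    · ext y
      simp only [mem_filter, mem_image]
      constructor
      · rintro ⟨⟨z, hz, rfl⟩, h⟩
        exact ⟨z, ⟨hz, hH.lt_iff_lt.1 h⟩, rfl⟩
      · rintro ⟨z, ⟨hz, h⟩, rfl⟩
        exact ⟨⟨z, hz, rfl⟩, hH.lt_iff_lt.2 h⟩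
  have key : ∀ (r : R) (t : ι → ℕ), F r (fun i => H (t i)) =
      a (N t).card (fun i => ⟨pt t i, hptlt t i⟩) r := by
    intro r t
    have h1 := ha ((N t).image H) (by
      intro y hy
      simp only [coe_image, Set.mem_image, mem_coe] at hy
      obtain ⟨z, hz, rfl⟩ := hy
      exact hmem z (by simp [N] at hz; exact hz.1)) (card_image_le.trans (hNs t))
    rw [card_image_of_injective _ hH.injective] at h1
    have h2 := congrFun (congrFun h1 (fun i => ⟨pt t i, hptlt t i⟩)) r
    rw [← h2]
    congr 1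
    funext i
    simp only [pt]
    split
    · rename_i h0
      rw [h0, hH0, acc_zero]
    · rename_i h0
      rw [← hfilter, acc_eq (by
        rw [mem_image]; exact ⟨t i, by simp [N, h0], rfl⟩)]
  intro r t g hg0 hg
  rw [key r t]
  have h3 := key r (fun i => g (t i))
  rw [h3]
  have hgi : ∀ i, g (t i) = 0 ↔ t i = 0 := by
    intro i
    have := hg.injOn.eq_iff (Set.mem_insert_of_mem 0 (Set.mem_range_self i)) (Set.mem_insert 0 _)
    rw [hg0] at this
    exact this
  have hNg : N (fun i => g (t i)) = (N t).image g := by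
    ext y
    simp only [N, mem_erase, mem_image, mem_univ, true_and]
    constructor
    · rintro ⟨h0, i, rfl⟩
      exact ⟨t i, ⟨fun h => h0 ((hgi i).2 h), i, rfl⟩, rfl⟩
    · rintro ⟨_, ⟨h0, i, rfl⟩, rfl⟩
      exact ⟨fun h => h0 ((hgi i).1 h), i, rfl⟩
  have hsub : ((N t : Finset ℕ) : Set ℕ) ⊆ insert 0 (Set.range t) := by
    intro y hy
    simp only [N, mem_coe, mem_erase, mem_image, mem_univ, true_and] at hy
    exact Set.mem_insert_of_mem _ hy.2
  have hcard : (N (fun i => g (t i))).card = (N t).card := by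
    rw [hNg]; exact card_image_of_injOn (hg.injOn.mono hsub)
  have hpt : ∀ i, pt (fun i => g (t i)) i = pt t i := by
    intro i
    simp only [pt, hgi i]
    split
    · rfl
    · rw [hNg, show ((N t).image g).filter (· < g (t i)) = ((N t).filter (· < t i)).image g from ?_]
      · rw [card_image_of_injOn (hg.injOn.mono ((coe_subset.2 (filter_subset _ _)).trans hsub))]
      · have hi : t i ∈ insert 0 (Set.range t) := Set.mem_insert_of_mem _ ⟨i, rfl⟩
        ext y
        simp only [mem_filter, mem_image]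
        constructor
        · rintro ⟨⟨z, hz, rfl⟩, h⟩
          exact ⟨z, ⟨hz, (hg.lt_iff_lt (hsub hz) hi).1 h⟩, rfl⟩
        · rintro ⟨z, ⟨hz, h⟩, rfl⟩
          exact ⟨⟨z, hz, rfl⟩, (hg.lt_iff_lt (hsub hz) hi).2 h⟩
  rw [hcard]
  congr 1
  funext i
  exact Fin.ext (hpt i)

end Pool.Agent.L7h39.TN
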